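import Pool.Agent.Helper12_TD.Faith
import Pool.Agent.Helper12_RN.Size
import Pool.Agent.Helper12_FV.Bound

set_option autoImplicit false

/-! Degrees and lengths after a faithful substitution. -/

namespace Pool.Agent.Helper12_TD

open MvPolynomial

variable {n : ℕ}

theorem phi_eq_sum (q τ r : ℕ) (ν : Fin r → Fin (n + 1)) (P : MvPolynomial (Fin n) ℤ) :
    phi ℤ n q τ r ν P = ∑ a ∈ P.support, C (coeff a P) * ∏ s, (phi ℤ n q τ r ν (X s)) ^ a s := by
  conv_lhs => rw [P.as_sum]
  rw [map_sum]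
  apply Finset.sum_congr rfl
  intro a _
  have h1 : monomial a (coeff a P) = C (coeff a P) * ∏ s, (X s : MvPolynomial (Fin n) ℤ) ^ a s := by
    rw [monomial_eq, Finsupp.prod_fintype _ _ (fun _ => pow_zero _)]
  rw [h1, map_mul, map_prod]
  simp only [map_pow]
  congr 1
  rw [← algebraMap_eq, AlgHom.commutes, algebraMap_eq]

theorem phi_X (q τ r : ℕ) (ν : Fin r → Fin (n + 1)) (s : Fin n) :
    phi ℤ n q τ r ν (X s) = X 0 ^ (τ ^ (s : ℕ) % q)
      + ∑ i, if ν i = s.castSucc then X i.succ else 0 := by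
  rw [phi, aeval_X]

theorem totalDegree_phi_X {q : ℕ} (hq : 1 ≤ q) (τ r : ℕ) (ν : Fin r → Fin (n + 1)) (s : Fin n) :
    (phi ℤ n q τ r ν (X s)).totalDegree ≤ q := by
  rw [phi_X]
  refine (totalDegree_add _ _).trans (max_le ?_ ?_)
  · rw [totalDegree_X_pow]
    exact (Nat.mod_lt _ (by omega)).le
  · refine totalDegree_finsetSum_le (fun i _ => ?_)
    split_ifs
    · rw [totalDegree_X]; exact hq
    · simp

theorem totalDegree_phi {q : ℕ} (hq : 1 ≤ q) (τ r : ℕ) (ν : Fin r → Fin (n + 1))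
    (P : MvPolynomial (Fin n) ℤ) {D : ℕ} (hD : P.totalDegree ≤ D) :
    (phi ℤ n q τ r ν P).totalDegree ≤ q * D := by
  rw [phi_eq_sum]
  refine totalDegree_finsetSum_le (fun a ha => ?_)
  refine (totalDegree_mul _ _).trans ?_
  rw [totalDegree_C, zero_add]
  refine (totalDegree_finsetProd _ _).trans ?_
  have h1 : ∀ s, ((phi ℤ n q τ r ν (X s)) ^ a s).totalDegree ≤ q * a s := by
    intro s
    refine (totalDegree_pow _ _).trans ?_
    rw [mul_comm]
    exact Nat.mul_le_mul_right _ (totalDegree_phi_X hq τ r ν s)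
  refine (Finset.sum_le_sum (fun s _ => h1 s)).trans ?_
  rw [← Finset.mul_sum]
  apply Nat.mul_le_mul_left
  have h2 := le_totalDegree ha
  rw [Finsupp.sum_fintype _ _ (fun _ => rfl)] at h2
  exact h2.trans hD

open Helper12_RN in
theorem len_phi_X (q τ r : ℕ) (ν : Fin r → Fin (n + 1)) (s : Fin n) :
    len (phi ℤ n q τ r ν (X s)) ≤ 1 + r := by
  have hX : ∀ i : Fin (r + 1), len (X i : MvPolynomial (Fin (r + 1)) ℤ) = 1 := by
    intro i
    rw [X, len_monomial]; rfl
  rw [phi_X]
  refine (len_add _ _).trans (Nat.add_le_add ?_ ?_)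
  · refine (len_pow _ _).trans ?_
    rw [hX, one_pow]
  · refine (len_sum _ _).trans ?_
    have h1 : ∀ i : Fin r, len (if ν i = s.castSucc then (X i.succ :
        MvPolynomial (Fin (r + 1)) ℤ) else 0) ≤ 1 := by
      intro i
      split_ifs
      · rw [hX]
      · rw [len_zero]; exact Nat.zero_le _
    refine (Finset.sum_le_sum (fun i _ => h1 i)).trans ?_
    simp

open Helper12_RN in
theorem len_phi (q τ r : ℕ) (ν : Fin r → Fin (n + 1)) (P : MvPolynomial (Fin n) ℤ) {D b : ℕ}
    (hD : P.totalDegree ≤ D) (hb : len P ≤ 2 ^ b) : len (phi ℤ n q τ r ν P) ≤ 2 ^ (b + r * D) := by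
  have h0 : len (phi ℤ n q τ r ν P) ≤ len P * (1 + r) ^ D := by
    rw [phi_eq_sum]
    refine (len_sum _ _).trans ?_
    rw [len, Finset.sum_mul]
    apply Finset.sum_le_sum
    intro a ha
    refine (len_mul _ _).trans ?_
    have h1 : len (C (coeff a P) : MvPolynomial (Fin (r + 1)) ℤ) = (coeff a P).natAbs := by
      rw [C_apply, len_monomial]
    rw [h1]
    apply Nat.mul_le_mul_left
    refine (len_prod _ _).trans ?_
    have h2 : ∀ s, len ((phi ℤ n q τ r ν (X s)) ^ a s) ≤ (1 + r) ^ a s := fun s =>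
      (len_pow _ _).trans (Nat.pow_le_pow_left (len_phi_X q τ r ν s) _)
    refine (Finset.prod_le_prod' (fun s _ => h2 s)).trans ?_
    rw [Finset.prod_pow_eq_pow_sum]
    apply Nat.pow_le_pow_right (by omega)
    have h2 := le_totalDegree ha
    rw [Finsupp.sum_fintype _ _ (fun _ => rfl)] at h2
    exact h2.trans hD
  refine h0.trans ?_
  rw [pow_add]
  refine Nat.mul_le_mul hb ?_
  rw [pow_mul]
  apply Nat.pow_le_pow_left
  have := Nat.lt_two_pow_self (n := r)
  omega

theorem phi_map (q τ r : ℕ) (ν : Fin r → Fin (n + 1)) (P : MvPolynomial (Fin n) ℤ) :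
    map (Int.castRingHom ℚ) (phi ℤ n q τ r ν P)
      = phi ℚ n q τ r ν (map (Int.castRingHom ℚ) P) := by
  induction P using MvPolynomial.induction_on with
  | C a =>
    have h1 : ∀ (R : Type) [CommRing R] (c : R), phi R n q τ r ν (C c) = C c := by
      intro R _ c
      rw [← algebraMap_eq, AlgHom.commutes]
      rfl
    rw [h1, map_C, map_C, h1]
  | add p p' hp hp' => rw [map_add, map_add, map_add, map_add, hp, hp']
  | mul_X p t hp =>
    rw [map_mul, map_mul, hp, map_mul, map_mul, map_X]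
    congr 1
    rw [phi, phi, aeval_X, aeval_X, map_add, map_pow, map_X, map_sum]
    congr 1
    apply Finset.sum_congr rfl
    intro i _
    split_ifs
    · rw [map_X]
    · rw [map_zero]

end Pool.Agent.Helper12_TD
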