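import Pool.Agent.Helper12_TD.KS

set_option autoImplicit false

/-! Faithful substitutions. -/

namespace Pool.Agent.Helper12_TD

open MvPolynomial

theorem card_support_mul {σ R : Type} [CommRing R] (p q : MvPolynomial σ R) :
    (p * q).support.card ≤ p.support.card * q.support.card := by
  classical
  exact (Finset.card_le_card (support_mul p q)).trans (Finset.card_add_le)

theorem card_support_prod {σ R ι : Type} [CommRing R] (S : ℕ) (I : Finset ι)
    (p : ι → MvPolynomial σ R) (h : ∀ i ∈ I, (p i).support.card ≤ S) :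
    (∏ i ∈ I, p i).support.card ≤ S ^ I.card := by
  classical
  induction I using Finset.induction_on with
  | empty =>
    rw [Finset.prod_empty, Finset.card_empty, pow_zero]
    have : (1 : MvPolynomial σ R) = monomial 0 1 := rfl
    rw [this]
    exact (Finset.card_le_card support_monomial_subset).trans (by simp)
  | insert a I ha ih =>
    rw [Finset.prod_insert ha, Finset.card_insert_of_notMem ha, pow_succ, mul_comm (S ^ I.card)]
    exact (card_support_mul _ _).trans (Nat.mul_le_mul (h a (Finset.mem_insert_self _ _))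
      (ih fun i hi => h i (Finset.mem_insert_of_mem hi)))

theorem card_support_sum {σ R ι : Type} [CommRing R] (S : ℕ) (I : Finset ι)
    (p : ι → MvPolynomial σ R) (h : ∀ i ∈ I, (p i).support.card ≤ S) :
    (∑ i ∈ I, p i).support.card ≤ I.card * S := by
  classical
  refine (Finset.card_le_card (support_sum)).trans ?_
  refine Finset.card_biUnion_le.trans ?_
  exact (Finset.sum_le_sum h).trans (by rw [Finset.sum_const, smul_eq_mul])

theorem card_support_det {σ R : Type} [CommRing R] {s : ℕ} (S : ℕ)
    (M : Matrix (Fin s) (Fin s) (MvPolynomial σ R)) (h : ∀ i j, (M i j).support.card ≤ S) :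
    M.det.support.card ≤ s.factorial * S ^ s := by
  classical
  rw [Matrix.det_apply]
  refine (card_support_sum (S ^ s) Finset.univ _ ?_).trans ?_
  · intro σ' _
    have h1 : (∏ i, M (σ' i) i).support.card ≤ S ^ s := by
      refine (card_support_prod S Finset.univ _ (fun i _ => h _ _)).trans ?_
      rw [Finset.card_univ, Fintype.card_fin]
    rcases Int.units_eq_one_or (Equiv.Perm.sign σ') with h2 | h2
    · rw [h2, one_smul]; exact h1
    · rw [h2, Units.neg_smul, one_smul, support_neg]; exact h1
  · rw [Finset.card_univ, Fintype.card_perm, Fintype.card_fin]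

theorem totalDegree_det_le {σ R : Type} [CommRing R] {s : ℕ} (D : ℕ)
    (M : Matrix (Fin s) (Fin s) (MvPolynomial σ R)) (h : ∀ i j, (M i j).totalDegree ≤ D) :
    M.det.totalDegree ≤ s * D := by
  classical
  rw [Matrix.det_apply]
  refine totalDegree_finsetSum_le (fun σ' _ => ?_)
  have h1 : (∏ i, M (σ' i) i).totalDegree ≤ s * D := by
    refine (totalDegree_finsetProd _ _).trans ?_
    refine (Finset.sum_le_sum (fun i _ => h _ _)).trans ?_
    rw [Finset.sum_const, Finset.card_univ, Fintype.card_fin, smul_eq_mul]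
  rcases Int.units_eq_one_or (Equiv.Perm.sign σ') with h2 | h2
  · rw [h2, one_smul]; exact h1
  · rw [h2, Units.neg_smul, one_smul, totalDegree_neg]; exact h1

theorem card_support_pderiv {n : ℕ} (P : MvPolynomial (Fin n) ℚ) (i : Fin n) :
    (pderiv i P).support.card ≤ P.support.card := by
  classical
  have h : (pderiv i P).support ⊆ P.support.image (fun a => a - Finsupp.single i 1) := by
    intro m hm
    rw [mem_support_iff, coeff_pderiv] at hm
    rw [Finset.mem_image]
    refine ⟨m + Finsupp.single i 1, mem_support_iff.2 (left_ne_zero_of_mul hm), ?_⟩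
    exact add_tsub_cancel_right m _
  exact (Finset.card_le_card h).trans Finset.card_image_le

theorem totalDegree_pderiv_le {n : ℕ} (P : MvPolynomial (Fin n) ℚ) (i : Fin n) :
    (pderiv i P).totalDegree ≤ P.totalDegree := by
  by_cases h : P.totalDegree = 0
  · have h1 := totalDegree_eq_zero_iff_eq_C.1 h
    rw [h1, pderiv_C]; simp
  · exact (totalDegree_pderiv_lt P i h).le

/-- Algebraic independence is preserved if a Jacobian minor is preserved. -/
theorem phi_algInd {n q τ r s : ℕ} (hsr : s ≤ r) (ν : Fin r → Fin (n + 1)) (ν0 : Fin s → Fin n)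
    (hν : ∀ j, ν (Fin.castLE hsr j) = (ν0 j).castSucc) (f : Fin s → MvPolynomial (Fin n) ℚ)
    (hdet : (Matrix.of fun i j => pderiv (ν0 j) (f i)).det ≠ 0)
    (hinj : Set.InjOn (W n q τ) (Matrix.of fun i j => pderiv (ν0 j) (f i)).det.support) :
    AlgebraicIndependent ℚ fun i => phi ℚ n q τ r ν (f i) := by
  classical
  apply algInd_of_det _ (fun j => pderiv (Fin.castLE hsr j).succ)
  have h1 : (Matrix.of fun i j => pderiv (Fin.castLE hsr j).succ (phi ℚ n q τ r ν (f i)))
      = (phi ℚ n q τ r ν).mapMatrix (Matrix.of fun i j => pderiv (ν0 j) (f i)) := by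
    ext1 i j
    rw [Matrix.of_apply, AlgHom.mapMatrix_apply, Matrix.map_apply, Matrix.of_apply]
    exact pderiv_phi n q τ r ν (f i) _ _ (hν j)
  rw [h1, ← AlgHom.map_det]
  exact phi_ne_zero ℚ n q τ r ν _ hdet hinj

/-- Some substitution is faithful and separates given sets of monomials. -/
theorem exists_faithful {n r S D q : ℕ} (hq : q.Prime) {ι : Type}
    (P : ι → MvPolynomial (Fin n) ℚ) (hS : ∀ i, (P i).support.card ≤ S)
    (hD : ∀ i, (P i).totalDegree ≤ D)
    (htr : ∀ s (g : Fin s → ι), AlgebraicIndependent ℚ (fun i => P (g i)) → s ≤ r) {κ : Type}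
    (I : Finset κ) (T : κ → Finset (Fin n →₀ ℕ)) (hT : ∀ i ∈ I, (T i).card ≤ S)
    (hT2 : ∀ i ∈ I, ∀ a ∈ T i, ∀ s, a s < q)
    (hbig : n * ((r.factorial * S ^ r) ^ 2 + I.card * S ^ 2) < q) (hrD : r * D < q)
    (hS1 : 1 ≤ S) :
    ∃ ν : Fin r → Fin (n + 1), ∃ τ < q, (∀ F ∈ Algebra.adjoin ℚ (Set.range P), F ≠ 0 →
      phi ℚ n q τ r ν F ≠ 0) ∧ ∀ i ∈ I, Set.InjOn (W n q τ) (T i) := by
  classical
  -- a maximal algebraically independent family
  obtain ⟨s, ⟨g, hg⟩, hmax⟩ : ∃ s, (∃ g : Fin s → ι, AlgebraicIndependent ℚ fun i => P (g i)) ∧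
      ∀ s', (∃ g : Fin s' → ι, AlgebraicIndependent ℚ fun i => P (g i)) → s' ≤ s := by
    have h0 : ∃ g : Fin 0 → ι, AlgebraicIndependent ℚ fun i => P (g i) := by
      refine ⟨fun i => i.elim0, ?_⟩
      rw [algebraicIndependent_empty_type_iff]
      exact (algebraMap ℚ _).injective
    have hb : ∀ s, (∃ g : Fin s → ι, AlgebraicIndependent ℚ fun i => P (g i)) → s ≤ r :=
      fun s ⟨g, hg⟩ => htr s g hg
    refine ⟨Nat.findGreatest (fun s => ∃ g : Fin s → ι, AlgebraicIndependent ℚ fun i => P (g i)) r,
      ?_, ?_⟩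
    · exact Nat.findGreatest_spec (P := fun s => ∃ g : Fin s → ι,
        AlgebraicIndependent ℚ fun i => P (g i)) (Nat.zero_le r) h0
    · intro s' hs'
      exact Nat.le_findGreatest (hb s' hs') hs'
  have hsr : s ≤ r := htr s g hg
  obtain ⟨ν0, hdet⟩ := det_of_algInd (fun i => P (g i)) hg
  set Δ := (Matrix.of fun i j => pderiv (ν0 j) (P (g i))).det with hΔ
  have hΔc : Δ.support.card ≤ r.factorial * S ^ r := by
    refine (card_support_det S _ (fun i j => ?_)).trans ?_
    · rw [Matrix.of_apply]; exact (card_support_pderiv _ _).trans (hS _)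
    · exact Nat.mul_le_mul (Nat.factorial_le hsr) (Nat.pow_le_pow_right hS1 hsr)
  have hΔd : Δ.totalDegree ≤ r * D := by
    refine (totalDegree_det_le D _ (fun i j => ?_)).trans (Nat.mul_le_mul_right _ hsr)
    rw [Matrix.of_apply]; exact (totalDegree_pderiv_le _ _).trans (hD _)
  obtain ⟨τ, hτ, hsep⟩ := exists_tau hq (I := insert none (I.image some))
    (fun o : Option κ => o.elim Δ.support T) (by
      intro o ho a ha t
      rw [Finset.mem_insert] at ho
      rcases ho with rfl | ho
      · have h1 := le_totalDegree ha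
        have h2 : a t ≤ a.sum fun _ e => e := by
          by_cases hat : a t = 0
          · rw [hat]; exact Nat.zero_le _
          · exact Finset.single_le_sum (f := fun i => a i) (fun _ _ => Nat.zero_le _)
              (Finsupp.mem_support_iff.2 hat)
        omega
      · obtain ⟨i, hi, rfl⟩ := Finset.mem_image.1 ho
        exact hT2 i hi a ha t) (by
      refine lt_of_le_of_lt (Nat.mul_le_mul_left _ ?_) hbig
      rw [Finset.sum_insert (by simp)]
      refine Nat.add_le_add (Nat.pow_le_pow_left hΔc 2) ?_
      rw [Finset.sum_image (by intro x _ y _ h; exact Option.some_injective _ h)]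
      refine (Finset.sum_le_sum (fun i hi => Nat.pow_le_pow_left (hT i hi) 2)).trans ?_
      rw [Finset.sum_const, smul_eq_mul])
  refine ⟨fun i => if h : (i : ℕ) < s then (ν0 ⟨i, h⟩).castSucc else Fin.last n, τ, hτ, ?_, ?_⟩
  · set ν : Fin r → Fin (n + 1) := fun i => if h : (i : ℕ) < s then (ν0 ⟨i, h⟩).castSucc
      else Fin.last n with hν
    have hind := phi_algInd (q := q) (τ := τ) hsr ν ν0 (by
      intro j
      simp only [hν]
      rw [dif_pos (by simp)]
      rfl) (fun i => P (g i)) hdet (by
        have := hsep none (Finset.mem_insert_self _ _)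
        exact this)
    set S0 : Subalgebra ℚ (MvPolynomial (Fin n) ℚ) :=
      Algebra.adjoin ℚ (Set.range fun i => P (g i)) with hS0
    have hinj0 : ∀ a ∈ S0, phi ℚ n q τ r ν a = 0 → a = 0 := by
      intro a ha h0
      rw [hS0, Algebra.adjoin_range_eq_range_aeval] at ha
      obtain ⟨Q, rfl⟩ := ha
      have h1 : phi ℚ n q τ r ν (aeval (fun i => P (g i)) Q)
          = aeval (fun i => phi ℚ n q τ r ν (P (g i))) Q := by
        rw [← AlgHom.comp_apply, comp_aeval]
      have h0' : phi ℚ n q τ r ν (aeval (fun i => P (g i)) Q) = 0 := h0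
      rw [h1] at h0'
      have h2 := hind.eq_zero_of_aeval_eq_zero Q h0'
      rw [h2]
      simp
    have halg : ∀ i, IsAlgebraic S0 (P i) := by
      intro i
      by_contra htrans
      have h1 := (hg.option_iff_transcendental (P i)).2 htrans
      have h2 := hmax (s + 1) ⟨fun j => (finSuccEquiv s j).elim i g, by
        have h3 := h1.comp (finSuccEquiv s) (finSuccEquiv s).injective
        have h4 : (fun j => P ((finSuccEquiv s j).elim i g))
            = (fun o : Option (Fin s) => o.elim (P i) fun i => P (g i)) ∘ finSuccEquiv s := by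
          funext j
          rw [Function.comp_apply]
          rcases finSuccEquiv s j with _ | j' <;> rfl
        rw [h4]
        exact h3⟩
      omega
    intro F hF hF0
    have h6 : Algebra.adjoin ℚ (Set.range P) ≤
        (Subalgebra.algebraicClosure S0 (MvPolynomial (Fin n) ℚ)).restrictScalars ℚ := by
      rw [Algebra.adjoin_le_iff]
      rintro _ ⟨i, rfl⟩
      exact halg i
    exact ne_zero_ext (phi ℚ n q τ r ν) S0 hinj0 F (h6 hF) hF0
  · intro i hi
    exact hsep (some i) (Finset.mem_insert_of_mem (Finset.mem_image_of_mem _ hi))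

end Pool.Agent.Helper12_TD
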