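import Mathlib

set_option autoImplicit false

/-! The Jacobian criterion for algebraic independence of polynomials in characteristic zero. -/

namespace Pool.Agent.Helper12_TD

section uni

open Polynomial

/-- In characteristic zero a derivation that vanishes on a subalgebra vanishes on all elements
algebraic over it. -/
theorem der_alg {A : Type} [CommRing A] [IsDomain A] [Algebra ℚ A] (δ : Derivation ℚ A A)
    (S : Subalgebra ℚ A) (hS : ∀ a ∈ S, δ a = 0) (a : A) (ha : IsAlgebraic S a) : δ a = 0 := by
  classical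
  have : CharZero A := algebraRat.charZero A
  have hSinj : Function.Injective (algebraMap S A) := Subtype.val_injective
  have : CharZero S := algebraRat.charZero S
  let δ' : Derivation S A A := Derivation.mk'
    { toFun := δ
      map_add' := fun x y => map_add δ x y
      map_smul' := fun c x => by
        rw [Algebra.smul_def, Derivation.leibniz]
        have : δ (algebraMap S A c) = 0 := hS _ c.2
        rw [this, smul_zero, add_zero]
        simp [Algebra.smul_def] }
    (fun x y => δ.leibniz x y)
  have hδ' : ∀ x, δ' x = δ x := fun x => rfl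
  obtain ⟨P, hP0, hP⟩ := ha
  obtain ⟨n, hn⟩ : ∃ n, ∃ P : S[X], P ≠ 0 ∧ aeval a P = 0 ∧ P.natDegree = n :=
    ⟨_, P, hP0, hP, rfl⟩
  have hex : ∃ n, ∃ P : S[X], P ≠ 0 ∧ aeval a P = 0 ∧ P.natDegree = n := ⟨n, hn⟩
  obtain ⟨Q, hQ0, hQ, hQn⟩ := Nat.find_spec hex
  have hmin : ∀ P : S[X], P ≠ 0 → aeval a P = 0 → Q.natDegree ≤ P.natDegree := by
    intro P h1 h2
    rw [hQn]
    exact Nat.find_min' hex ⟨P, h1, h2, rfl⟩
  have hdeg : Q.natDegree ≠ 0 := by
    intro h
    obtain ⟨c, hc⟩ := Polynomial.natDegree_eq_zero.1 h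
    rw [← hc, aeval_C] at hQ
    have : c = 0 := hSinj (by rw [hQ, map_zero])
    rw [← hc, this, map_zero] at hQ0
    exact hQ0 rfl
  have hd0 : derivative Q ≠ 0 := by
    intro h
    exact hdeg (Polynomial.derivative_eq_zero.1 h)
  have hda : aeval a (derivative Q) ≠ 0 := by
    intro h
    have h1 := hmin _ hd0 h
    have h2 := Polynomial.natDegree_derivative_lt hdeg
    omega
  have h3 := δ'.map_aeval Q a
  rw [hQ, map_zero, hδ', smul_eq_mul] at h3
  exact (mul_eq_zero.1 h3.symm).resolve_left hda

/-- A homomorphism that is injective on a subalgebra does not kill nonzero elements algebraic over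
it. -/
theorem ne_zero_ext {A B : Type} [CommRing A] [IsDomain A] [Algebra ℚ A] [CommRing B] [Algebra ℚ B]
    (φ : A →ₐ[ℚ] B) (S : Subalgebra ℚ A) (hinj : ∀ a ∈ S, φ a = 0 → a = 0) (a : A)
    (ha : IsAlgebraic S a) (ha0 : a ≠ 0) : φ a ≠ 0 := by
  classical
  intro hφ
  obtain ⟨P, hP0, hP⟩ := ha
  have hex : ∃ n, ∃ P : S[X], P ≠ 0 ∧ aeval a P = 0 ∧ P.natDegree = n := ⟨_, P, hP0, hP, rfl⟩
  obtain ⟨Q, hQ0, hQ, hQn⟩ := Nat.find_spec hex
  have hmin : ∀ P : S[X], P ≠ 0 → aeval a P = 0 → Q.natDegree ≤ P.natDegree := by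
    intro P h1 h2
    rw [hQn]
    exact Nat.find_min' hex ⟨P, h1, h2, rfl⟩
  have h1 : aeval a Q = aeval a (divX Q) * a + algebraMap S A (Q.coeff 0) := by
    conv_lhs => rw [← divX_mul_X_add Q]
    rw [map_add, map_mul, aeval_X, aeval_C]
  have hc : Q.coeff 0 ≠ 0 := by
    intro h
    rw [h, map_zero, add_zero, hQ] at h1
    have h2 : aeval a (divX Q) = 0 := (mul_eq_zero.1 h1.symm).resolve_right ha0
    have h3 : divX Q ≠ 0 := by
      intro h4
      have := divX_mul_X_add Q
      rw [h4, h, zero_mul, map_zero, add_zero] at this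
      exact hQ0 this.symm
    have h4 := hmin _ h3 h2
    rw [natDegree_divX_eq_natDegree_tsub_one] at h4
    have h5 : Q.natDegree ≠ 0 := by
      intro h5
      obtain ⟨c, hc⟩ := Polynomial.natDegree_eq_zero.1 h5
      rw [← hc] at h
      rw [coeff_C_zero] at h
      rw [← hc, h, map_zero] at hQ0
      exact hQ0 rfl
    omega
  have h2 := congrArg φ h1
  rw [hQ, map_zero, map_add, map_mul, hφ, mul_zero, zero_add] at h2
  have h3 := hinj (algebraMap S A (Q.coeff 0)) (Q.coeff 0).2 h2.symm
  exact hc (Subtype.ext h3)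

end uni

open MvPolynomial

/-- Chain rule for a derivation. -/
theorem der_aeval {B : Type} [CommRing B] [Algebra ℚ B] {s : ℕ} (d : Derivation ℚ B B)
    (g : Fin s → B) (P : MvPolynomial (Fin s) ℚ) :
    d (aeval g P) = ∑ i, aeval g (pderiv i P) * d (g i) := by
  induction P using MvPolynomial.induction_on with
  | C a =>
    simp
  | add p q hp hq =>
    rw [map_add, map_add, hp, hq, ← Finset.sum_add_distrib]
    apply Finset.sum_congr rfl
    intro i _
    rw [map_add, map_add, add_mul]
  | mul_X p i hp =>
    rw [map_mul, aeval_X, Derivation.leibniz, hp]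
    have : ∀ j, aeval g (pderiv j (p * X i)) * d (g j)
        = g i * (aeval g (pderiv j p) * d (g j)) + (if j = i then aeval g p * d (g i) else 0) := by
      intro j
      rw [pderiv_mul, map_add, map_mul, map_mul, aeval_X, pderiv_X]
      by_cases h : j = i
      · subst h
        simp
        ring
      · rw [Pi.single_eq_of_ne (fun h' => h h'.symm), if_neg h, map_zero]
        ring
    simp only [this]
    rw [Finset.sum_add_distrib, Finset.sum_ite_eq' Finset.univ i]
    simp only [Finset.mem_univ, if_true, smul_eq_mul]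
    rw [Finset.mul_sum]
    ring

theorem totalDegree_pderiv_lt {s : ℕ} (P : MvPolynomial (Fin s) ℚ) (i : Fin s)
    (h : P.totalDegree ≠ 0) : (pderiv i P).totalDegree < P.totalDegree := by
  rw [totalDegree, Finset.sup_lt_iff (Nat.pos_of_ne_zero h)]
  intro m hm
  rw [mem_support_iff, coeff_pderiv] at hm
  have h1 : coeff (m + Finsupp.single i 1) P ≠ 0 := left_ne_zero_of_mul hm
  have h2 := le_totalDegree (mem_support_iff.2 h1)
  rw [Finsupp.sum_add_index' (fun _ => rfl) (fun _ _ _ => rfl), Finsupp.sum_single_index rfl] at h2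
  change (m.sum fun _ e => e) < _
  omega

/-- Easy direction of the Jacobian criterion. -/
theorem algInd_of_det {B : Type} [CommRing B] [IsDomain B] [Algebra ℚ B] {s : ℕ} (g : Fin s → B)
    (d : Fin s → Derivation ℚ B B) (hdet : (Matrix.of fun i j => d j (g i)).det ≠ 0) :
    AlgebraicIndependent ℚ g := by
  classical
  have hinj : Function.Injective (algebraMap ℚ B) := (algebraMap ℚ B).injective
  have key : ∀ n, ∀ P : MvPolynomial (Fin s) ℚ, P.totalDegree = n → aeval g P = 0 → P = 0 := by
    intro n
    induction n using Nat.strong_induction_on with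
    | _ n ih =>
      intro P hP h0
      by_cases hz : P.totalDegree = 0
      · rw [totalDegree_eq_zero_iff_eq_C] at hz
        rw [hz, aeval_C] at h0
        have : coeff 0 P = 0 := hinj (by rw [h0, map_zero])
        rw [hz, this, map_zero]
      · exfalso
        have h1 : ∀ j, ∑ i, aeval g (pderiv i P) * d j (g i) = 0 := by
          intro j
          rw [← der_aeval, h0, map_zero]
        have h2 : (fun i => aeval g (pderiv i P)) = 0 := by
          apply Matrix.eq_zero_of_vecMul_eq_zero hdet
          funext j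
          exact h1 j
        have h3 : ∀ i, pderiv i P = 0 := by
          intro i
          have hlt := totalDegree_pderiv_lt P i hz
          exact ih _ (by rw [← hP]; exact hlt) _ rfl (congrFun h2 i)
        apply hz
        rw [totalDegree_eq_zero_iff_eq_C]
        ext m
        rw [coeff_C]
        by_cases hm : 0 = m
        · rw [if_pos hm, hm]
        · rw [if_neg hm]
          obtain ⟨i, hi⟩ : ∃ i, m i ≠ 0 := by
            by_contra h4
            push Not at h4
            exact hm (Finsupp.ext h4).symm
          have h5 := congrArg (coeff (m - Finsupp.single i 1)) (h3 i)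
          rw [coeff_pderiv, coeff_zero] at h5
          have h6 : m - Finsupp.single i 1 + Finsupp.single i 1 = m := by
            apply tsub_add_cancel_of_le
            rw [Finsupp.single_le_iff]
            omega
          rw [h6] at h5
          rcases mul_eq_zero.1 h5 with h7 | h7
          · exact h7
          · exfalso
            have : (0 : ℚ) ≤ ((m - Finsupp.single i 1 : Fin s →₀ ℕ) i : ℚ) := Nat.cast_nonneg _
            linarith
  rw [algebraicIndependent_iff]
  intro P hP
  exact key _ P rfl hP

/-- Hard direction of the Jacobian criterion: algebraically independent polynomials have a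
nonvanishing Jacobian minor. -/
theorem det_of_algInd {n s : ℕ} (f : Fin s → MvPolynomial (Fin n) ℚ)
    (hf : AlgebraicIndependent ℚ f) :
    ∃ ν : Fin s → Fin n, (Matrix.of fun i j => pderiv (ν j) (f i)).det ≠ 0 := by
  classical
  set t : Set (MvPolynomial (Fin n) ℚ) :=
    Set.range f ∪ Set.range (X : Fin n → MvPolynomial (Fin n) ℚ) with ht
  have hadj : Algebra.adjoin ℚ t = ⊤ := by
    rw [eq_top_iff, ← MvPolynomial.adjoin_range_X]
    exact Algebra.adjoin_mono Set.subset_union_right
  have halg : Algebra.IsAlgebraic (Algebra.adjoin ℚ t) (MvPolynomial (Fin n) ℚ) := by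
    rw [hadj]
    exact ⟨fun a => isAlgebraic_algebraMap
      (⟨a, trivial⟩ : (⊤ : Subalgebra ℚ (MvPolynomial (Fin n) ℚ)))⟩
  obtain ⟨u, hu1, hu2, hu⟩ := exists_isTranscendenceBasis_between (R := ℚ) (Set.range f) t
    Set.subset_union_left hf.to_subtype_range
  -- the variables in `u` outside the range of `f`
  set T : Set (Fin n) := {i | (X i : MvPolynomial (Fin n) ℚ) ∈ u ∧
    (X i : MvPolynomial (Fin n) ℚ) ∉ Set.range f} with hT
  have hfinj : Function.Injective f := hf.injective
  have hXinj : Function.Injective (X : Fin n → MvPolynomial (Fin n) ℚ) := X_injective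
  have hcard : s + Fintype.card T = n := by
    have h1 : Cardinal.mk u = Cardinal.mk (Fin n) := by
      have h2 := hu.cardinalMk_eq_trdeg
      rw [h2, MvPolynomial.trdeg_of_isDomain, Cardinal.lift_id]
    have e : (Fin s ⊕ T) ≃ u := by
      refine Equiv.ofBijective (Sum.elim (fun i => ⟨f i, hu1 ⟨i, rfl⟩⟩)
        (fun i => ⟨X i.1, i.2.1⟩)) ⟨?_, ?_⟩
      · rintro (i | i) (j | j) h
        · simp only [Sum.elim_inl, Subtype.mk.injEq] at h
          rw [hfinj h]
        · simp only [Sum.elim_inl, Sum.elim_inr, Subtype.mk.injEq] at h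
          exact absurd ⟨i, h⟩ j.2.2
        · simp only [Sum.elim_inl, Sum.elim_inr, Subtype.mk.injEq] at h
          exact absurd ⟨j, h.symm⟩ i.2.2
        · simp only [Sum.elim_inr, Subtype.mk.injEq] at h
          rw [Subtype.ext (hXinj h)]
      · rintro ⟨x, hx⟩
        by_cases hxf : x ∈ Set.range f
        · obtain ⟨i, rfl⟩ := hxf
          exact ⟨Sum.inl i, rfl⟩
        · rcases hu2 hx with h | ⟨i, rfl⟩
          · exact absurd h hxf
          · exact ⟨Sum.inr ⟨i, hx, hxf⟩, rfl⟩
    have h3 := Cardinal.mk_congr e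
    rw [h1] at h3
    simp only [Cardinal.mk_fintype, Fintype.card_sum, Fintype.card_fin] at h3
    exact_mod_cast h3
  have hcompl : Fintype.card (↥Tᶜ) = s := by
    have := Fintype.card_compl_set T
    rw [Fintype.card_fin] at this
    omega
  let ν' : Fin s ≃ ↥Tᶜ := (Fintype.equivFinOfCardEq hcompl).symm
  refine ⟨fun j => (ν' j).1, ?_⟩
  intro hdet
  obtain ⟨v, hv0, hv⟩ := Matrix.exists_mulVec_eq_zero_iff.2 hdet
  let δ : Derivation ℚ (MvPolynomial (Fin n) ℚ) (MvPolynomial (Fin n) ℚ) :=
    ∑ j, v j • pderiv (ν' j).1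
  have hδ : ∀ a, δ a = ∑ j, v j * pderiv (ν' j).1 a := by
    intro a
    have : ∀ S : Finset (Fin s), (∑ j ∈ S, v j • pderiv (ν' j).1 :
        Derivation ℚ (MvPolynomial (Fin n) ℚ) (MvPolynomial (Fin n) ℚ)) a
          = ∑ j ∈ S, v j * pderiv (ν' j).1 a := by
      intro S
      induction S using Finset.induction_on with
      | empty => simp
      | insert j S hj ih => rw [Finset.sum_insert hj, Finset.sum_insert hj, ← ih]; rfl
    exact this _
  have hu0 : ∀ x ∈ u, δ x = 0 := by
    intro x hx
    by_cases hxf : x ∈ Set.range f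
    · obtain ⟨i, rfl⟩ := hxf
      rw [hδ]
      have := congrFun hv i
      rw [Matrix.mulVec, dotProduct] at this
      refine Eq.trans ?_ this
      apply Finset.sum_congr rfl
      intro j _
      rw [Matrix.of_apply]; ring
    · rcases hu2 hx with h | ⟨i, rfl⟩
      · exact absurd h hxf
      · rw [hδ]
        apply Finset.sum_eq_zero
        intro j _
        have : (ν' j).1 ≠ i := by
          intro h
          exact (ν' j).2 (by rw [h]; exact ⟨hx, hxf⟩)
        rw [pderiv_X_of_ne this.symm, mul_zero]
  have hS : ∀ a ∈ Algebra.adjoin ℚ u, δ a = 0 := by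
    intro a ha
    induction ha using Algebra.adjoin_induction with
    | mem x hx => exact hu0 x hx
    | algebraMap r => exact δ.map_algebraMap r
    | add x y _ _ hx hy => rw [map_add, hx, hy, add_zero]
    | mul x y _ _ hx hy => rw [Derivation.leibniz, hx, hy, smul_zero, smul_zero, add_zero]
  have halg' := hu.isAlgebraic
  have hrange : Set.range ((↑) : u → MvPolynomial (Fin n) ℚ) = u := Subtype.range_coe
  rw [hrange] at halg'
  apply hv0
  funext j
  have h1 := der_alg δ _ hS (X (ν' j).1) (halg'.isAlgebraic _)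
  rw [hδ, Finset.sum_eq_single j] at h1
  · rw [pderiv_X_self, mul_one] at h1
    exact h1
  · intro j' _ hj'
    have : (ν' j').1 ≠ (ν' j).1 := by
      intro h
      exact hj' (ν'.injective (Subtype.ext h))
    rw [pderiv_X_of_ne this.symm, mul_zero]
  · intro h; exact absurd (Finset.mem_univ j) h

end Pool.Agent.Helper12_TD
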