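import Pool.Agent.Helper12_TD.Jac

set_option autoImplicit false

/-! Substitutions that separate few monomials and preserve algebraic independence. -/

namespace Pool.Agent.Helper12_TD

open MvPolynomial

/-- The weight of an exponent vector. -/
def W (n q τ : ℕ) (a : Fin n →₀ ℕ) : ℕ := ∑ s, a s * (τ ^ (s : ℕ) % q)

/-- At most `n` values of `τ` do not separate two given exponent vectors. -/
theorem bad_card {n q : ℕ} (hq : q.Prime) (a b : Fin n →₀ ℕ) (ha : ∀ s, a s < q)
    (hb : ∀ s, b s < q) (hab : a ≠ b) :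
    ((Finset.range q).filter fun τ => W n q τ a = W n q τ b).card ≤ n := by
  classical
  have : Fact q.Prime := ⟨hq⟩
  set P : Polynomial (ZMod q) := ∑ s : Fin n, Polynomial.C ((a s : ZMod q) - (b s : ZMod q))
    * Polynomial.X ^ (s : ℕ) with hP
  have hcoeff : ∀ s : Fin n, P.coeff (s : ℕ) = (a s : ZMod q) - (b s : ZMod q) := by
    intro s
    rw [hP, Polynomial.finsetSum_coeff]
    simp only [Polynomial.coeff_C_mul, Polynomial.coeff_X_pow]
    rw [Finset.sum_eq_single s]
    · simp
    · intro t _ ht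
      rw [if_neg (fun h => ht (Fin.ext h.symm)), mul_zero]
    · intro h; exact absurd (Finset.mem_univ s) h
  have hP0 : P ≠ 0 := by
    intro h
    apply hab
    ext s
    have h1 := hcoeff s
    rw [h, Polynomial.coeff_zero] at h1
    have h2 : ((a s : ℕ) : ZMod q) = ((b s : ℕ) : ZMod q) := (sub_eq_zero.1 h1.symm)
    rw [ZMod.natCast_eq_natCast_iff'] at h2
    rwa [Nat.mod_eq_of_lt (ha s), Nat.mod_eq_of_lt (hb s)] at h2
  have hdeg : P.natDegree ≤ n := by
    rw [hP]
    apply Polynomial.natDegree_sum_le_of_forall_le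
    intro s _
    refine (Polynomial.natDegree_C_mul_X_pow_le _ _).trans ?_
    exact s.2.le
  have hroot : ∀ τ, W n q τ a = W n q τ b → P.IsRoot (τ : ZMod q) := by
    intro τ h
    have h1 : ((W n q τ a : ℕ) : ZMod q) = ((W n q τ b : ℕ) : ZMod q) := by rw [h]
    unfold W at h1
    push_cast at h1
    simp only [ZMod.natCast_mod, Nat.cast_pow] at h1
    rw [Polynomial.IsRoot.def, hP, Polynomial.eval_finsetSum]
    simp only [Polynomial.eval_mul, Polynomial.eval_C, Polynomial.eval_pow, Polynomial.eval_X,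
      sub_mul, Finset.sum_sub_distrib]
    rw [h1, sub_self]
  have hinj : Set.InjOn (fun τ : ℕ => (τ : ZMod q))
      ↑((Finset.range q).filter fun τ => W n q τ a = W n q τ b) := by
    intro x hx y hy hxy
    rw [Finset.coe_filter, Set.mem_ofPred_eq, Finset.mem_range] at hx hy
    have h2 : ((x : ℕ) : ZMod q) = ((y : ℕ) : ZMod q) := hxy
    rw [ZMod.natCast_eq_natCast_iff'] at h2
    rwa [Nat.mod_eq_of_lt hx.1, Nat.mod_eq_of_lt hy.1] at h2
  rw [← Finset.card_image_of_injOn hinj]
  refine le_trans ?_ ((Polynomial.card_roots' P).trans hdeg)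
  refine le_trans ?_ (Multiset.toFinset_card_le _)
  apply Finset.card_le_card
  intro z hz
  obtain ⟨τ, hτ, rfl⟩ := Finset.mem_image.1 hz
  rw [Multiset.mem_toFinset, Polynomial.mem_roots hP0]
  exact hroot τ (Finset.mem_filter.1 hτ).2

/-- Some `τ` separates each of the given sets of monomials. -/
theorem exists_tau {n q : ℕ} (hq : q.Prime) {κ : Type} (I : Finset κ)
    (T : κ → Finset (Fin n →₀ ℕ)) (hT : ∀ i ∈ I, ∀ a ∈ T i, ∀ s, a s < q)
    (hbig : n * ∑ i ∈ I, (T i).card ^ 2 < q) :
    ∃ τ < q, ∀ i ∈ I, Set.InjOn (W n q τ) (T i) := by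
  classical
  by_contra hcon
  push Not at hcon
  have hcover : Finset.range q ⊆ I.biUnion fun i => ((T i) ×ˢ (T i)).biUnion fun z =>
      if z.1 ≠ z.2 then (Finset.range q).filter fun τ => W n q τ z.1 = W n q τ z.2 else ∅ := by
    intro τ hτ
    obtain ⟨i, hi, hnot⟩ := hcon τ (Finset.mem_range.1 hτ)
    rw [Finset.mem_biUnion]
    refine ⟨i, hi, ?_⟩
    rw [Set.InjOn] at hnot
    push Not at hnot
    obtain ⟨a, ha, b, hb, hab, hne⟩ := hnot
    rw [Finset.mem_biUnion]
    refine ⟨(a, b), Finset.mk_mem_product ha hb, ?_⟩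
    rw [if_pos hne, Finset.mem_filter]
    exact ⟨hτ, hab⟩
  have h1 := Finset.card_le_card hcover
  rw [Finset.card_range] at h1
  have h2 : (I.biUnion fun i => ((T i) ×ˢ (T i)).biUnion fun z =>
      if z.1 ≠ z.2 then (Finset.range q).filter fun τ => W n q τ z.1 = W n q τ z.2 else ∅).card
      ≤ ∑ i ∈ I, (T i).card ^ 2 * n := by
    refine Finset.card_biUnion_le.trans ?_
    apply Finset.sum_le_sum
    intro i hi
    refine Finset.card_biUnion_le.trans ?_
    calc ∑ z ∈ (T i) ×ˢ (T i), (if z.1 ≠ z.2 then (Finset.range q).filter fun τ =>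
          W n q τ z.1 = W n q τ z.2 else ∅).card ≤ ∑ z ∈ (T i) ×ˢ (T i), n := by
          apply Finset.sum_le_sum
          intro z hz
          rw [Finset.mem_product] at hz
          split_ifs with h
          · exact bad_card hq _ _ (hT i hi _ hz.1) (hT i hi _ hz.2) h
          · simp
      _ = (T i).card ^ 2 * n := by
          rw [Finset.sum_const, Finset.card_product, smul_eq_mul, sq]
  rw [← Finset.sum_mul, mul_comm] at h2
  omega

section phi

variable (R : Type) [CommRing R] (n q τ r : ℕ) (ν : Fin r → Fin (n + 1))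

/-- `x_s ↦ Y ^ (τ ^ s mod q) + ∑_{i : ν i = s} Z_i`, with `Y = X 0` and `Z_i = X (i + 1)`. -/
noncomputable def phi : MvPolynomial (Fin n) R →ₐ[R] MvPolynomial (Fin (r + 1)) R :=
  aeval fun s => X 0 ^ (τ ^ (s : ℕ) % q) + ∑ i, if ν i = s.castSucc then X i.succ else 0

/-- `x_s ↦ Y ^ (τ ^ s mod q)` -/
noncomputable def psi : MvPolynomial (Fin n) R →ₐ[R] MvPolynomial (Fin (r + 1)) R :=
  aeval fun s => X 0 ^ (τ ^ (s : ℕ) % q)

/-- `Z = 0` -/
noncomputable def rho : MvPolynomial (Fin (r + 1)) R →ₐ[R] MvPolynomial (Fin (r + 1)) R :=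
  aeval fun i => if i = 0 then X 0 else 0

theorem rho_phi : (rho R r).comp (phi R n q τ r ν) = psi R n q τ r := by
  apply MvPolynomial.algHom_ext
  intro s
  rw [AlgHom.comp_apply, phi, psi, aeval_X, aeval_X, rho, map_add, map_pow, aeval_X, if_pos rfl,
    map_sum]
  rw [Finset.sum_eq_zero, add_zero]
  intro i _
  split_ifs
  · rw [aeval_X, if_neg (Fin.succ_ne_zero i)]
  · rw [map_zero]

theorem psi_monomial (a : Fin n →₀ ℕ) (c : R) :
    psi R n q τ r (monomial a c) = monomial (Finsupp.single 0 (W n q τ a)) c := by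
  rw [psi, aeval_monomial, Finsupp.prod_fintype _ _ (fun _ => pow_zero _)]
  have : ∏ s : Fin n, ((X 0 : MvPolynomial (Fin (r + 1)) R) ^ (τ ^ (s : ℕ) % q)) ^ a s
      = X 0 ^ W n q τ a := by
    rw [W, ← Finset.prod_pow_eq_pow_sum]
    apply Finset.prod_congr rfl
    intro s _
    rw [← pow_mul, mul_comm]
  rw [this, X_pow_eq_monomial, algebraMap_eq, C_mul_monomial, mul_one]

/-- Coefficients after a separating substitution. -/
theorem coeff_psi (P : MvPolynomial (Fin n) R)
    (hinj : Set.InjOn (W n q τ) P.support) (a : Fin n →₀ ℕ) (ha : a ∈ P.support) :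
    coeff (Finsupp.single 0 (W n q τ a)) (psi R n q τ r P) = coeff a P := by
  classical
  conv_lhs => rw [P.as_sum]
  rw [map_sum, coeff_sum]
  simp only [psi_monomial, coeff_monomial]
  rw [Finset.sum_eq_single a]
  · rw [if_pos rfl]
  · intro b hb hne
    rw [if_neg]
    intro h
    have h1 := Finsupp.single_injective 0 h
    exact hne (hinj hb ha h1)
  · intro h; exact absurd ha h

theorem psi_ne_zero (P : MvPolynomial (Fin n) R) (hP : P ≠ 0)
    (hinj : Set.InjOn (W n q τ) P.support) : psi R n q τ r P ≠ 0 := by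
  obtain ⟨a, ha⟩ := support_nonempty.2 hP
  intro h
  have h1 := coeff_psi R n q τ r P hinj a ha
  rw [h, coeff_zero] at h1
  exact (mem_support_iff.1 ha) h1.symm

theorem phi_ne_zero (P : MvPolynomial (Fin n) R) (hP : P ≠ 0)
    (hinj : Set.InjOn (W n q τ) P.support) : phi R n q τ r ν P ≠ 0 := by
  intro h
  apply psi_ne_zero R n q τ r P hP hinj
  rw [← rho_phi R n q τ r ν, AlgHom.comp_apply, h, map_zero]

end phi

/-- A primitive polynomial stays primitive. -/
theorem phi_primitive (n q τ r : ℕ) (ν : Fin r → Fin (n + 1)) (P : MvPolynomial (Fin n) ℤ)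
    (hprim : ∀ z : ℤ, C z ∣ P → IsUnit z) (hinj : Set.InjOn (W n q τ) P.support) (z : ℤ)
    (hz : C z ∣ phi ℤ n q τ r ν P) : IsUnit z := by
  classical
  apply hprim
  rw [C_dvd_iff_dvd_coeff]
  intro a
  by_cases ha : a ∈ P.support
  · rw [← coeff_psi ℤ n q τ r P hinj a ha, ← rho_phi ℤ n q τ r ν, AlgHom.comp_apply]
    have h1 : C z ∣ rho ℤ r (phi ℤ n q τ r ν P) := by
      have := map_dvd (rho ℤ r) hz
      rwa [← algebraMap_eq, AlgHom.commutes] at this
    rw [C_dvd_iff_dvd_coeff] at h1
    exact h1 _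
  · rw [notMem_support_iff.1 ha]; exact dvd_zero _

/-- Derivatives in the new variables. -/
theorem pderiv_phi (n q τ r : ℕ) (ν : Fin r → Fin (n + 1)) (P : MvPolynomial (Fin n) ℚ) (i : Fin r)
    (s : Fin n) (hs : ν i = s.castSucc) :
    pderiv i.succ (phi ℚ n q τ r ν P) = phi ℚ n q τ r ν (pderiv s P) := by
  classical
  induction P using MvPolynomial.induction_on with
  | C a =>
    rw [pderiv_C, map_zero, ← algebraMap_eq, AlgHom.commutes]
    exact pderiv_C
  | add p p' hp hp' => rw [map_add, map_add, map_add, map_add, hp, hp']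
  | mul_X p t hp =>
    rw [map_mul, pderiv_mul, hp, pderiv_mul, map_add, map_mul, map_mul]
    congr 1
    congr 1
    rw [phi, aeval_X, map_add, map_sum, pderiv_pow]
    have h0 : pderiv i.succ (X 0 : MvPolynomial (Fin (r + 1)) ℚ) = 0 :=
      pderiv_X_of_ne (Fin.succ_ne_zero i).symm
    rw [h0, mul_zero, zero_add]
    have h1 : ∀ j, pderiv i.succ (if ν j = t.castSucc then (X j.succ :
        MvPolynomial (Fin (r + 1)) ℚ) else 0) = if j = i ∧ s = t then 1 else 0 := by
      intro j
      by_cases hj : j = i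
      · subst hj
        rw [hs]
        by_cases hst : s = t
        · rw [if_pos (by rw [hst]), if_pos ⟨rfl, hst⟩, pderiv_X_self]
        · rw [if_neg (fun h => hst (Fin.castSucc_injective _ h)), if_neg (fun h => hst h.2),
            map_zero]
      · have h2 : ¬ (j = i ∧ s = t) := fun h => hj h.1
        rw [if_neg h2]
        by_cases hν : ν j = t.castSucc
        · rw [if_pos hν]
          exact pderiv_X_of_ne (fun h => hj (Fin.succ_injective _ h))
        · rw [if_neg hν, map_zero]
    simp only [h1]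
    rw [pderiv_X]
    by_cases hst : s = t
    · subst hst
      simp
    · have h2 : (Pi.single s 1 : Fin n → MvPolynomial (Fin n) ℚ) t = 0 :=
        Pi.single_eq_of_ne (fun h => hst h.symm) _
      rw [h2, map_zero]
      apply Finset.sum_eq_zero
      intro j _
      have h3 : ¬ (j = i ∧ s = t) := fun h => hst h.2
      rw [if_neg h3]

end Pool.Agent.Helper12_TD
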